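import Pool.Agent.StripTouch.Final

/-!
MP_7da5c3_an. Let `f = h + conj g` be a univalent sense preserving harmonic map of the unit disc,
and suppose that `f(D)` contains a strip that widens linearly at both ends; in other words the
complement of `f(D)` is contained in the union of two opposite closed sectors
`S1 = {Re (ν (w - w1)) ≤ -ε |w - w1|}` and `S2 = {Re (ν (w - w2)) ≥ ε |w - w2|}` of opening less
than `π`, where `Re (ν w1) < Re (ν w2)`.

* If the complement is not empty, then `h` and `g` lie in `H^p` for all `0 < p < 1/3`.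
* If the complement meets both sectors, then `h` and `g` lie in `H^p` for all `0 < p < 1/2`.

Nothing else is assumed about the complement. The first part contains the case that the complement
is not empty and lies in one sector of opening less than `π`.
-/

set_option autoImplicit false

namespace Pool.Agent.Results.MP_7da5c3_an.OppositeSectors

open Pool.Agent.StripTouch

theorem result (h g : ℂ → ℂ)
    (hh : DifferentiableOn ℂ h (Metric.ball (0 : ℂ) 1))
    (hg : DifferentiableOn ℂ g (Metric.ball (0 : ℂ) 1))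
    (hinj : Set.InjOn (fun z => h z + (starRingEnd ℂ) (g z)) (Metric.ball (0 : ℂ) 1))
    (hJ : ∀ z ∈ Metric.ball (0 : ℂ) 1, ‖deriv g z‖ < ‖deriv h z‖)
    (K : Set ℂ)
    (hKdef : K = ((fun z => h z + (starRingEnd ℂ) (g z)) '' Metric.ball (0 : ℂ) 1)ᶜ)
    (hne : K.Nonempty)
    (ν w1 w2 : ℂ) (hν : ν ≠ 0) (ε : ℝ) (hε : 0 < ε) (h12 : (ν * w1).re < (ν * w2).re)
    (hK : ∀ w ∈ K, (ν * (w - w1)).re ≤ -ε * ‖w - w1‖ ∨ ε * ‖w - w2‖ ≤ (ν * (w - w2)).re)
    (p : ℝ) (hp : 0 < p)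
    (hp1 : p < 1 / 3 ∨ p < 1 / 2 ∧
      (∃ w ∈ K, (ν * (w - w1)).re ≤ -ε * ‖w - w1‖) ∧
      (∃ w ∈ K, ε * ‖w - w2‖ ≤ (ν * (w - w2)).re)) :
    (∃ M : ℝ, ∀ r : ℝ, 0 ≤ r → r < 1 →
      ∫ θ in (0 : ℝ)..(2 * Real.pi),
        ‖h ((r : ℂ) * Complex.exp ((θ : ℂ) * Complex.I))‖ ^ p ≤ M) ∧
    (∃ M : ℝ, ∀ r : ℝ, 0 ≤ r → r < 1 →
      ∫ θ in (0 : ℝ)..(2 * Real.pi),
        ‖g ((r : ℂ) * Complex.exp ((θ : ℂ) * Complex.I))‖ ^ p ≤ M) := by
  subst hKdef
  exact sectors (D := ⟨hh, hg, hinj, hJ⟩) hν hε hne h12 hK hp hp1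

end Pool.Agent.Results.MP_7da5c3_an.OppositeSectors
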