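import Pool.Agent.StripTouch.Final

/-!
MP_7da5c3_an. Let `f = h + conj g` be a univalent sense preserving harmonic map of the unit disc
and `Ω = f(D)`. Suppose that `Ω` contains a strip `a < Re (ν w) < b`, `ν ≠ 0`, and that the line
`Re (ν w) = a` is an edge: it carries a point outside `Ω` lying between two points of `Ω`. Then

* the analytic function `ν h + conj(ν) g`, whose real part is the real part of `ν f`, lies in
  `H^p` for all `p < 1/3`, and for all `p < 1/2` if `Re (ν w) = b` is an edge too;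
* `h` and `g` lie in `H^p` for all `p < 1/4`, and for all `p < 1/3` if `Re (ν w) = b` is an edge
  too.
-/

set_option autoImplicit false

namespace Pool.Agent.Results.MP_7da5c3_an.StripEdges

open Pool.Agent.StripTouch

theorem result (h g : ℂ → ℂ)
    (hh : DifferentiableOn ℂ h (Metric.ball (0 : ℂ) 1))
    (hg : DifferentiableOn ℂ g (Metric.ball (0 : ℂ) 1))
    (hinj : Set.InjOn (fun z => h z + (starRingEnd ℂ) (g z)) (Metric.ball (0 : ℂ) 1))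
    (hJ : ∀ z ∈ Metric.ball (0 : ℂ) 1, ‖deriv g z‖ < ‖deriv h z‖)
    (Ω : Set ℂ) (hΩ : Ω = (fun z => h z + (starRingEnd ℂ) (g z)) '' Metric.ball (0 : ℂ) 1)
    (ν : ℂ) (hν : ν ≠ 0) (a b : ℝ) (hS : Gap Ω ν a b) (hE : Edge Ω ν a) :
    (∀ p : ℝ, 0 < p → (p < 1 / 3 ∨ Edge Ω ν b ∧ p < 1 / 2) →
      ∃ M : ℝ, ∀ r : ℝ, 0 ≤ r → r < 1 →
        ∫ θ in (0 : ℝ)..(2 * Real.pi),
          ‖ν * h ((r : ℂ) * Complex.exp ((θ : ℂ) * Complex.I))
            + (starRingEnd ℂ) ν * g ((r : ℂ) * Complex.exp ((θ : ℂ) * Complex.I))‖ ^ p ≤ M) ∧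
    (∀ p : ℝ, 0 < p → (p < 1 / 4 ∨ Edge Ω ν b ∧ p < 1 / 3) →
      (∃ M : ℝ, ∀ r : ℝ, 0 ≤ r → r < 1 →
        ∫ θ in (0 : ℝ)..(2 * Real.pi),
          ‖h ((r : ℂ) * Complex.exp ((θ : ℂ) * Complex.I))‖ ^ p ≤ M) ∧
      (∃ M : ℝ, ∀ r : ℝ, 0 ≤ r → r < 1 →
        ∫ θ in (0 : ℝ)..(2 * Real.pi),
          ‖g ((r : ℂ) * Complex.exp ((θ : ℂ) * Complex.I))‖ ^ p ≤ M)) := by
  subst hΩ
  constructor
  · rintro p hp (hp1 | ⟨hE', hp1⟩)
    · exact one_dir (D := ⟨hh, hg, hinj, hJ⟩) hν hS hE hp hp1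
    · exact two_edges' (D := ⟨hh, hg, hinj, hJ⟩) hν hS hE hE' hp hp1
  · rintro p hp (hp1 | ⟨hE', hp1⟩)
    · exact strip_one_edge (D := ⟨hh, hg, hinj, hJ⟩) hν hS hE hp hp1
    · exact strip_two_edges (D := ⟨hh, hg, hinj, hJ⟩) hν hS hE hE' hp hp1

end Pool.Agent.Results.MP_7da5c3_an.StripEdges
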